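import Pool.Agent.W200.MR.Stm

set_option autoImplicit false

open Finset Filter Topology MeasureTheory

namespace Pool.Agent.W371.MR

open Pool.Agent.W200.MR

theorem pw_mul (s : ℝ) {m n : ℕ} (hm : m ≠ 0) (hn : n ≠ 0) : pw s (m * n) = pw s m * pw s n := by
  unfold pw
  have h1 : (m : ℝ) ≠ 0 := by exact_mod_cast hm
  have h2 : (n : ℝ) ≠ 0 := by exact_mod_cast hn
  rw [← Complex.exp_add]
  congr 1
  push_cast
  rw [Real.log_mul h1 h2]
  push_cast
  ring

/-- sum of the Moebius function over the rough divisors -/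
theorem moebius_rough (T n : ℕ) (hn : n ≠ 0) :
    (open Classical in ∑ d ∈ n.divisors.filter (fun d => Rough T d),
      (ArithmeticFunction.moebius d : ℤ)) = (open Classical in if Smooth T n then 1 else 0) := by
  classical
  by_cases hS : Smooth T n
  · rw [if_pos hS, Finset.sum_eq_single 1]
    · exact ArithmeticFunction.moebius_apply_one
    · intro d hd hd1
      exfalso
      rw [Finset.mem_filter, Nat.mem_divisors] at hd
      obtain ⟨p, hp, hpd⟩ := Nat.exists_prime_and_dvd hd1
      have h1 := hd.2 p hp hpd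
      have h2 := hS p hp (hpd.trans hd.1.1)
      omega
    · intro h1
      exfalso
      apply h1
      rw [Finset.mem_filter, Nat.mem_divisors]
      refine ⟨⟨one_dvd _, hn⟩, fun p hp hp1 => ?_⟩
      exact absurd (Nat.dvd_one.1 hp1) hp.one_lt.ne'
  · rw [if_neg hS]
    unfold Smooth at hS
    push Not at hS
    obtain ⟨p, hp, hpn, hpT⟩ := hS
    have hsq : ∑ d ∈ n.divisors.filter (fun d => Rough T d), (ArithmeticFunction.moebius d : ℤ) =
        ∑ d ∈ n.divisors.filter (fun d => Rough T d ∧ Squarefree d),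
          (ArithmeticFunction.moebius d : ℤ) := by
      symm
      apply Finset.sum_subset
      · intro d hd
        rw [Finset.mem_filter] at hd ⊢
        exact ⟨hd.1, hd.2.1⟩
      · intro d hd hd'
        rw [Finset.mem_filter] at hd
        apply ArithmeticFunction.moebius_eq_zero_of_not_squarefree
        intro hs
        exact hd' (by rw [Finset.mem_filter]; exact ⟨hd.1, hd.2, hs⟩)
    rw [hsq]
    refine Finset.sum_involution (fun d _ => if p ∣ d then d / p else p * d) ?_ ?_ ?_ ?_
    · intro d hd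
      rw [Finset.mem_filter] at hd
      obtain ⟨_, _, hs⟩ := hd
      by_cases h : p ∣ d
      · rw [if_pos h]
        obtain ⟨e, rfl⟩ := h
        rw [Nat.mul_div_cancel_left e hp.pos]
        have hc : Nat.Coprime p e := Nat.coprime_of_squarefree_mul hs
        rw [ArithmeticFunction.isMultiplicative_moebius.map_mul_of_coprime hc,
          ArithmeticFunction.moebius_apply_prime hp]
        ring
      · rw [if_neg h]
        have hc : Nat.Coprime p d := (Nat.Prime.coprime_iff_not_dvd hp).2 h
        rw [ArithmeticFunction.isMultiplicative_moebius.map_mul_of_coprime hc,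
          ArithmeticFunction.moebius_apply_prime hp]
        ring
    · intro d hd _
      rw [Finset.mem_filter, Nat.mem_divisors] at hd
      have hd0 : d ≠ 0 := by
        intro h0
        rw [h0] at hd
        exact hn (zero_dvd_iff.1 hd.1.1)
      by_cases h : p ∣ d
      · rw [if_pos h]
        exact (Nat.div_lt_self (Nat.pos_of_ne_zero hd0) hp.one_lt).ne
      · rw [if_neg h]
        intro h1
        have h2 : p * d = 1 * d := by rw [h1, one_mul]
        have := Nat.eq_of_mul_eq_mul_right (Nat.pos_of_ne_zero hd0) h2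
        exact hp.one_lt.ne' this
    · intro d hd
      rw [Finset.mem_filter, Nat.mem_divisors] at hd
      obtain ⟨⟨hdn, _⟩, hR, hs⟩ := hd
      by_cases h : p ∣ d
      · rw [if_pos h]
        obtain ⟨e, rfl⟩ := h
        rw [Nat.mul_div_cancel_left e hp.pos, Finset.mem_filter, Nat.mem_divisors]
        refine ⟨⟨(Dvd.intro_left p rfl).trans hdn, hn⟩, fun q hq hqe =>
          hR q hq (hqe.trans (Dvd.intro_left p rfl)), hs.squarefree_of_dvd (Dvd.intro_left p rfl)⟩
      · rw [if_neg h]
        have hc : Nat.Coprime p d := (Nat.Prime.coprime_iff_not_dvd hp).2 h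
        rw [Finset.mem_filter, Nat.mem_divisors]
        refine ⟨⟨Nat.Coprime.mul_dvd_of_dvd_of_dvd hc hpn hdn, hn⟩, fun q hq hqd => ?_, ?_⟩
        · rcases (Nat.Prime.dvd_mul hq).1 hqd with h1 | h1
          · rw [(Nat.prime_dvd_prime_iff_eq hq hp).1 h1]
            exact hpT
          · exact hR q hq h1
        · exact (Nat.squarefree_mul hc).2 ⟨hp.squarefree, hs⟩
    · intro d hd
      rw [Finset.mem_filter, Nat.mem_divisors] at hd
      obtain ⟨⟨hdn, _⟩, hR, hs⟩ := hd
      by_cases h : p ∣ d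
      · obtain ⟨e, rfl⟩ := h
        have hc : Nat.Coprime p e := Nat.coprime_of_squarefree_mul hs
        have hpe : ¬ p ∣ e := (Nat.Prime.coprime_iff_not_dvd hp).1 hc
        rw [if_pos (Dvd.intro e rfl), Nat.mul_div_cancel_left e hp.pos, if_neg hpe]
      · rw [if_neg h, if_pos (Dvd.intro d rfl), Nat.mul_div_cancel_left d hp.pos]

/-- rough numbers are invertible modulo `a < T` -/
theorem inv_mod {T a d : ℕ} (ha : 1 ≤ a) (haT : a < T) (hd : Rough T d) :
    ∃ d' : ℕ, d * d' ≡ 1 [MOD a] := by
  have hc : Nat.Coprime d a := by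
    by_contra h
    obtain ⟨p, hp, hpd, hpa⟩ := Nat.Prime.not_coprime_iff_dvd.1 h
    have h1 := hd p hp hpd
    have h2 := Nat.le_of_dvd (by omega) hpa
    omega
  rcases Nat.eq_or_lt_of_le ha with h1 | h1
  · subst h1
    exact ⟨0, Nat.modEq_one⟩
  · obtain ⟨m, _, hm⟩ := Nat.exists_mul_mod_eq_one_of_coprime hc h1
    refine ⟨m, ?_⟩
    unfold Nat.ModEq
    rw [hm, Nat.mod_eq_of_lt h1]

open Classical in
theorem t_DEa : S_DEa := by
  intro s T a b N ha haT
  have hinv : ∀ d : ℕ, ∃ d' : ℕ, Rough T d → d * d' ≡ 1 [MOD a] := by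
    intro d
    by_cases h : Rough T d
    · obtain ⟨d', hd'⟩ := inv_mod ha haT h
      exact ⟨d', fun _ => hd'⟩
    · exact ⟨0, fun h' => absurd h' h⟩
  choose i hi using hinv
  refine ⟨fun d => i d * b, ?_⟩
  unfold SD SA
  have h1 : ∑ n ∈ (AP a b N).filter (fun n => Smooth T n), pw s n =
      ∑ n ∈ AP a b N, ∑ d ∈ (Icc 1 N).filter (fun d => Rough T d),
        if d ∣ n then ((ArithmeticFunction.moebius d : ℤ) : ℂ) * pw s n else 0 := by
    rw [Finset.sum_filter]
    refine Finset.sum_congr rfl fun n hn => ?_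
    have hn1 : 1 ≤ n ∧ n ≤ N := by
      unfold AP at hn
      rw [Finset.mem_filter, Finset.mem_Icc] at hn
      exact hn.1
    rw [← Finset.sum_filter]
    have hset : ((Icc 1 N).filter (fun d => Rough T d)).filter (fun d => d ∣ n) =
        n.divisors.filter (fun d => Rough T d) := by
      ext d
      simp only [Finset.mem_filter, Finset.mem_Icc, Nat.mem_divisors]
      constructor
      · rintro ⟨⟨⟨h1, h2⟩, h3⟩, h4⟩
        exact ⟨⟨h4, by omega⟩, h3⟩
      · rintro ⟨⟨h1, h2⟩, h3⟩
        have h4 := Nat.le_of_dvd (by omega) h1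
        have h5 := Nat.pos_of_dvd_of_pos h1 (by omega)
        exact ⟨⟨⟨h5, by omega⟩, h3⟩, h1⟩
    rw [hset, ← Finset.sum_mul, ← Int.cast_sum, moebius_rough T n (by omega)]
    by_cases hS : Smooth T n
    · rw [if_pos hS, if_pos hS, Int.cast_one, one_mul]
    · rw [if_neg hS, if_neg hS, Int.cast_zero, zero_mul]
  rw [h1, Finset.sum_comm]
  refine Finset.sum_congr rfl fun d hd => ?_
  rw [Finset.mem_filter, Finset.mem_Icc] at hd
  obtain ⟨⟨hd1, hdN⟩, hdR⟩ := hd
  have hinvd := hi d hdR
  rw [← Finset.sum_filter, Finset.mul_sum]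
  symm
  refine Finset.sum_nbij (fun m => d * m) ?_ ?_ ?_ ?_
  · intro m hm
    unfold AP at hm ⊢
    rw [Finset.mem_filter, Finset.mem_Icc] at hm
    rw [Finset.mem_filter, Finset.mem_filter, Finset.mem_Icc]
    obtain ⟨⟨hm1, hm2⟩, hm3⟩ := hm
    refine ⟨⟨⟨Nat.mul_pos hd1 hm1, ?_⟩, ?_⟩, Dvd.intro m rfl⟩
    · calc d * m ≤ d * (N / d) := Nat.mul_le_mul_left d hm2
        _ ≤ N := Nat.mul_div_le N d
    · have h2 : m ≡ i d * b [MOD a] := hm3
      have h3 : d * m ≡ b [MOD a] := by
        calc d * m ≡ d * (i d * b) [MOD a] := Nat.ModEq.mul_left d h2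
          _ = (d * i d) * b := by ring
          _ ≡ 1 * b [MOD a] := Nat.ModEq.mul_right b hinvd
          _ = b := one_mul b
      exact h3
  · intro m _ m' _ h
    exact Nat.eq_of_mul_eq_mul_left hd1 h
  · intro n hn
    rw [Finset.mem_coe, Finset.mem_filter] at hn
    obtain ⟨hn1, ⟨m, rfl⟩⟩ := hn
    unfold AP at hn1
    rw [Finset.mem_filter, Finset.mem_Icc] at hn1
    obtain ⟨⟨hn2, hn3⟩, hn4⟩ := hn1
    refine ⟨m, ?_, rfl⟩
    rw [Finset.mem_coe]
    unfold AP
    rw [Finset.mem_filter, Finset.mem_Icc]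
    refine ⟨⟨Nat.pos_of_mul_pos_left hn2, ?_⟩, ?_⟩
    · rw [Nat.le_div_iff_mul_le hd1, mul_comm]
      exact hn3
    · have h2 : d * m ≡ b [MOD a] := hn4
      have h3 : m ≡ i d * b [MOD a] := by
        calc m = 1 * m := (one_mul m).symm
          _ ≡ (d * i d) * m [MOD a] := (Nat.ModEq.mul_right m hinvd).symm
          _ = i d * (d * m) := by ring
          _ ≡ i d * b [MOD a] := Nat.ModEq.mul_left (i d) h2
      exact h3
  · intro m hm
    unfold AP at hm
    rw [Finset.mem_filter, Finset.mem_Icc] at hm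
    rw [pw_mul s (by omega) (by omega)]
    ring

end Pool.Agent.W371.MR
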